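import Pool.Agent.Y927.LS.C

/-!
The `k`-fold sum-product inequality for sets which contain a large subset of sums of few elements
of a lacunary set.
-/

set_option autoImplicit false

namespace Pool.Agent.Y927.LS

open Finset
open scoped Pointwise

/-- `k`-fold form for a set `A` with a large subset `B` of sparse sums. -/
theorem kfold_subset (θ : ℝ) (k L s : ℕ) (hk : 1 ≤ k) (hL1 : 1 ≤ L)
    (Lam : Set ℝ) (hpos : ∀ l ∈ Lam, 0 < l)
    (hcount : ∀ x : ℝ, 0 < x → (Lam ∩ Set.Ioc x (2 * x)).encard ≤ L) (q t : ℝ) (hq : q ≠ 0)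
    (A B : Finset ℤ) (hne : A.Nonempty) (hBA : B ⊆ A) (hB : (A.card : ℝ) ^ (1 - θ) ≤ B.card)
    (hs : (s : ℝ) * Real.log (4 * k * L) ≤ θ * Real.log A.card)
    (hA : ∀ a ∈ B, ∃ M : Multiset ℝ, Multiset.card M ≤ s ∧ (∀ l ∈ M, l ∈ Lam) ∧
      M.sum = q * a + t) :
    (A.card : ℝ) ^ ((k : ℝ) * (1 - 2 * θ)) ≤
      (((Fintype.piFinset (fun _ : Fin k => A)).image (fun f : Fin k → ℤ => ∑ i, f i)).card : ℝ) := by
  have h1 := kfold_int k L s hk hL1 Lam hpos hcount q t hq B hA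
  have h2 : ((Fintype.piFinset (fun _ : Fin k => B)).image
        (fun f : Fin k → ℤ => ∑ i, f i)).card ≤
      ((Fintype.piFinset (fun _ : Fin k => A)).image (fun f : Fin k → ℤ => ∑ i, f i)).card := by
    apply Finset.card_le_card
    apply Finset.image_subset_image
    exact Fintype.piFinset_subset _ _ (fun _ => hBA)
  have hLr : (1 : ℝ) ≤ L := by exact_mod_cast hL1
  have hkr : (1 : ℝ) ≤ k := by exact_mod_cast hk
  have h3 : (B.card : ℝ) ^ k ≤ (4 * (k : ℝ) * (L : ℝ)) ^ (k * s) *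
      (((Fintype.piFinset (fun _ : Fin k => A)).image
        (fun f : Fin k → ℤ => ∑ i, f i)).card : ℝ) := by
    exact_mod_cast h1.trans (Nat.mul_le_mul_left _ h2)
  have hN1 : (1 : ℝ) ≤ A.card := by exact_mod_cast Finset.card_pos.2 hne
  have hN0 : (0 : ℝ) < A.card := by linarith
  have g0 : (0 : ℝ) < 4 * k * L := by positivity
  have p1 : (A.card : ℝ) ^ ((1 - θ) * k) ≤ (B.card : ℝ) ^ k := by
    rw [Real.rpow_mul hN0.le, Real.rpow_natCast]
    exact pow_le_pow_left₀ (by positivity) hB k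
  have p2 : (4 * (k : ℝ) * (L : ℝ)) ^ (k * s) ≤ (A.card : ℝ) ^ (k * θ) := by
    have e1 : (4 * (k : ℝ) * (L : ℝ)) ^ (k * s) =
        Real.exp (Real.log (4 * k * L) * (k * s : ℕ)) := by
      rw [← Real.rpow_natCast, Real.rpow_def_of_pos g0]
    rw [e1, Real.rpow_def_of_pos hN0]
    apply Real.exp_le_exp.2
    push_cast
    have := mul_le_mul_of_nonneg_left hs (by linarith : (0 : ℝ) ≤ k)
    nlinarith
  have p3 : (A.card : ℝ) ^ ((1 - θ) * k) ≤ (A.card : ℝ) ^ (k * θ) *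
      (((Fintype.piFinset (fun _ : Fin k => A)).image
        (fun f : Fin k → ℤ => ∑ i, f i)).card : ℝ) :=
    p1.trans (h3.trans (mul_le_mul_of_nonneg_right p2 (Nat.cast_nonneg _)))
  have p4 : (A.card : ℝ) ^ ((k : ℝ) * (1 - 2 * θ)) =
      (A.card : ℝ) ^ ((1 - θ) * k) / (A.card : ℝ) ^ (k * θ) := by
    rw [← Real.rpow_sub hN0]; congr 1; ring
  rw [p4, div_le_iff₀ (by positivity)]
  linarith

end Pool.Agent.Y927.LS
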