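import Mathlib

/-!
The number of representations as a sum of few elements of a lacunary set.
-/

set_option autoImplicit false

namespace Pool.Agent.Y927.LS

open Finset

section

variable {α : Type*} [DecidableEq α] (Q : Finset α) (v : α → ℝ) (L : ℕ)

/-- a dyadic sum -/
lemma dy (hL : ∀ x : ℝ, 0 < x → (Q.filter fun q => x < v q ∧ v q ≤ 2 * x).card ≤ L)
    (hv : ∀ q ∈ Q, 0 < v q) (N : ℝ) :
    ∀ (J : ℕ) (m : ℝ), 0 < m → m ≤ N → (∀ q ∈ Q, m < v q * 2 ^ J) →
      ∑ q ∈ Q.filter (fun q => v q ≤ m), (1 / 2 : ℝ) ^ (N / v q) ≤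
        2 * L * (1 / 2 : ℝ) ^ (N / m) := by
  intro J
  induction J with
  | zero =>
    intro m hm _ hJ
    have : Q.filter (fun q => v q ≤ m) = ∅ := by
      apply Finset.filter_eq_empty_iff.2
      intro q hq
      have := hJ q hq
      simp only [pow_zero, mul_one] at this
      exact not_le.2 this
    rw [this, Finset.sum_empty]
    positivity
  | succ J ih =>
    intro m hm hmN hJ
    have h2 := ih (m / 2) (by positivity) (by linarith) (fun q hq => by
      have := hJ q hq
      rw [pow_succ] at this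
      linarith)
    have hsplit : Q.filter (fun q => v q ≤ m) ⊆
        Q.filter (fun q => m / 2 < v q ∧ v q ≤ 2 * (m / 2)) ∪ Q.filter (fun q => v q ≤ m / 2) := by
      intro q hq
      rw [Finset.mem_filter] at hq
      rw [Finset.mem_union, Finset.mem_filter, Finset.mem_filter]
      rcases le_or_gt (v q) (m / 2) with h | h
      · exact Or.inr ⟨hq.1, h⟩
      · exact Or.inl ⟨hq.1, h, by linarith [hq.2]⟩
    have hdisj : Disjoint (Q.filter (fun q => m / 2 < v q ∧ v q ≤ 2 * (m / 2)))
        (Q.filter (fun q => v q ≤ m / 2)) := by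
      rw [Finset.disjoint_left]
      intro q h1 h3
      rw [Finset.mem_filter] at h1 h3
      linarith [h1.2.1, h3.2]
    set b := (1 / 2 : ℝ) ^ (N / m) with hb
    have hb0 : 0 < b := by positivity
    have hb1 : b ≤ 1 / 2 := by
      have : (1 / 2 : ℝ) ^ (N / m) ≤ (1 / 2 : ℝ) ^ (1 : ℝ) := by
        apply Real.rpow_le_rpow_of_exponent_ge (by norm_num) (by norm_num)
        rw [le_div_iff₀ hm]; linarith
      rw [Real.rpow_one] at this
      exact this
    have hb2 : (1 / 2 : ℝ) ^ (N / (m / 2)) = b * b := by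
      rw [hb, ← Real.rpow_add (by norm_num)]
      congr 1
      field_simp
      ring
    calc ∑ q ∈ Q.filter (fun q => v q ≤ m), (1 / 2 : ℝ) ^ (N / v q) ≤
        ∑ q ∈ Q.filter (fun q => m / 2 < v q ∧ v q ≤ 2 * (m / 2)) ∪
          Q.filter (fun q => v q ≤ m / 2), (1 / 2 : ℝ) ^ (N / v q) :=
          Finset.sum_le_sum_of_subset_of_nonneg hsplit (fun _ _ _ => by positivity)
      _ = ∑ q ∈ Q.filter (fun q => m / 2 < v q ∧ v q ≤ 2 * (m / 2)), (1 / 2 : ℝ) ^ (N / v q) +
          ∑ q ∈ Q.filter (fun q => v q ≤ m / 2), (1 / 2 : ℝ) ^ (N / v q) :=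
          Finset.sum_union hdisj
      _ ≤ L * b + 2 * L * (b * b) := by
          apply add_le_add
          · calc ∑ q ∈ Q.filter (fun q => m / 2 < v q ∧ v q ≤ 2 * (m / 2)),
                (1 / 2 : ℝ) ^ (N / v q) ≤
                ∑ _q ∈ Q.filter (fun q => m / 2 < v q ∧ v q ≤ 2 * (m / 2)), b := by
                  apply Finset.sum_le_sum
                  intro q hq
                  rw [Finset.mem_filter] at hq
                  have hq0 := hv q hq.1
                  apply Real.rpow_le_rpow_of_exponent_ge (by norm_num) (by norm_num)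
                  apply div_le_div_of_nonneg_left (by linarith) hq0 (by linarith [hq.2.2])
              _ = ((Q.filter (fun q => m / 2 < v q ∧ v q ≤ 2 * (m / 2))).card : ℝ) * b := by
                  rw [Finset.sum_const, nsmul_eq_mul]
              _ ≤ L * b := by
                  apply mul_le_mul_of_nonneg_right _ hb0.le
                  exact_mod_cast hL (m / 2) (by positivity)
          · rw [← hb2]; exact h2
      _ ≤ 2 * L * b := by
          have hL0 : (0 : ℝ) ≤ L := Nat.cast_nonneg L
          have : (2 * (L : ℝ) * b) * b ≤ (2 * L * b) * (1 / 2) :=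
            mul_le_mul_of_nonneg_left hb1 (by positivity)
          nlinarith

lemma dy' (hL : ∀ x : ℝ, 0 < x → (Q.filter fun q => x < v q ∧ v q ≤ 2 * x).card ≤ L)
    (hv : ∀ q ∈ Q, 0 < v q) (N m : ℝ) (hm : 0 < m) (hmN : m ≤ N) :
    ∑ q ∈ Q.filter (fun q => v q ≤ m), (1 / 2 : ℝ) ^ (N / v q) ≤
        2 * L * (1 / 2 : ℝ) ^ (N / m) := by
  obtain ⟨J, hJ⟩ : ∃ J : ℕ, ∀ q ∈ Q, m < v q * 2 ^ J := by
    have h1 : ∀ q ∈ Q, ∃ J : ℕ, ∀ J' ≥ J, m < v q * 2 ^ J' := by
      intro q hq
      have hq0 := hv q hq
      obtain ⟨J, hJ⟩ := pow_unbounded_of_one_lt (m / v q) (one_lt_two)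
      refine ⟨J, fun J' hJ' => ?_⟩
      rw [div_lt_iff₀ hq0] at hJ
      have : (2 : ℝ) ^ J ≤ 2 ^ J' := pow_le_pow_right₀ (by norm_num) hJ'
      nlinarith
    choose! J hJ using h1
    exact ⟨Q.sup J, fun q hq => hJ q hq _ (Finset.le_sup hq)⟩
  exact dy Q v L hL hv N J m hm hmN hJ

end

section

variable {α : Type*} [DecidableEq α] (Q : Finset α) (v : α → ℝ) (L : ℕ)

lemma sum_nonneg_of {U : Multiset α} (h : ∀ q ∈ U, 0 < v q) : 0 ≤ (U.map v).sum := by
  apply Multiset.sum_nonneg
  intro x hx
  rw [Multiset.mem_map] at hx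
  obtain ⟨q, hq, rfl⟩ := hx
  exact (h q hq).le

/-- the number of representations as a sum of at most `n` letters -/
theorem reps (hL1 : 1 ≤ L)
    (hL : ∀ x : ℝ, 0 < x → (Q.filter fun q => x < v q ∧ v q ≤ 2 * x).card ≤ L)
    (hv : ∀ q ∈ Q, 0 < v q) :
    ∀ (n : ℕ) (N x : ℝ), 0 < x → ∀ S : Finset (Multiset α),
      (∀ U ∈ S, Multiset.card U ≤ n ∧ (U.map v).sum = N ∧ ∀ q ∈ U, q ∈ Q ∧ v q ≤ x) →
      (S.card : ℝ) ≤ (4 * (L : ℝ)) ^ n * (1 / 2 : ℝ) ^ (N / x) := by
  have hLr : (1 : ℝ) ≤ L := by exact_mod_cast hL1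
  -- the degenerate case
  have deg : ∀ (n : ℕ) (N x : ℝ), 0 < x → ∀ S : Finset (Multiset α),
      (∀ U ∈ S, U = 0) → (∀ U ∈ S, (U.map v).sum = N) →
      (S.card : ℝ) ≤ (4 * (L : ℝ)) ^ n * (1 / 2 : ℝ) ^ (N / x) := by
    intro n N x hx S h0 hN
    rcases S.eq_empty_or_nonempty with rfl | ⟨U, hU⟩
    · simp only [Finset.card_empty, Nat.cast_zero]; positivity
    · have hN0 : N = 0 := by
        rw [← hN U hU, h0 U hU]; simp
      have hS : S ⊆ {0} := by
        intro V hV
        rw [Finset.mem_singleton]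
        exact h0 V hV
      have hc : S.card ≤ 1 := by simpa using Finset.card_le_card hS
      rw [hN0, zero_div, Real.rpow_zero, mul_one]
      calc (S.card : ℝ) ≤ 1 := by exact_mod_cast hc
        _ ≤ (4 * (L : ℝ)) ^ n := one_le_pow₀ (by linarith)
  intro n
  induction n with
  | zero =>
    intro N x hx S hS
    apply deg 0 N x hx S
    · intro U hU
      exact Multiset.card_eq_zero.1 (Nat.le_zero.1 (hS U hU).1)
    · intro U hU; exact (hS U hU).2.1
  | succ n ih =>
    intro N x hx S hS
    rcases le_or_gt N 0 with hN | hN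
    · apply deg (n + 1) N x hx S
      · intro U hU
        by_contra hne
        obtain ⟨q, hq⟩ := Multiset.exists_mem_of_ne_zero hne
        obtain ⟨V, rfl⟩ := Multiset.exists_cons_of_mem hq
        have h1 := (hS _ hU).2.1
        rw [Multiset.map_cons, Multiset.sum_cons] at h1
        have h2 : 0 ≤ (V.map v).sum := sum_nonneg_of v (fun r hr =>
          hv r ((hS _ hU).2.2 r (Multiset.mem_cons_of_mem hr)).1)
        have h3 := hv q ((hS _ hU).2.2 q (Multiset.mem_cons_self _ _)).1
        linarith
      · intro U hU; exact (hS U hU).2.1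
    · set m := min x N with hm
      have hm0 : 0 < m := lt_min hx hN
      -- the pieces
      set P : α → Finset (Multiset α) := fun q =>
        (S.filter fun U => q ∈ U ∧ ∀ r ∈ U, v r ≤ v q).image (fun U => U.erase q) with hP
      have hcover : S ⊆ (Q.filter fun q => v q ≤ m).biUnion
          (fun q => (P q).image (fun U => q ::ₘ U)) := by
        intro U hU
        have hUS := hS U hU
        have hne : U ≠ 0 := by
          rintro rfl
          have := hUS.2.1
          simp at this
          linarith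
        have hne' : U.toFinset.Nonempty := by
          obtain ⟨q, hq⟩ := Multiset.exists_mem_of_ne_zero hne
          exact ⟨q, Multiset.mem_toFinset.2 hq⟩
        obtain ⟨q, hq, hmax⟩ := Finset.exists_max_image U.toFinset v hne'
        rw [Multiset.mem_toFinset] at hq
        have hqQ := hUS.2.2 q hq
        have hqN : v q ≤ N := by
          obtain ⟨V, rfl⟩ := Multiset.exists_cons_of_mem hq
          have h1 := hUS.2.1
          rw [Multiset.map_cons, Multiset.sum_cons] at h1
          have h2 : 0 ≤ (V.map v).sum := sum_nonneg_of v (fun r hr =>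
            hv r (hUS.2.2 r (Multiset.mem_cons_of_mem hr)).1)
          linarith
        rw [Finset.mem_biUnion]
        refine ⟨q, Finset.mem_filter.2 ⟨hqQ.1, le_min hqQ.2 hqN⟩, ?_⟩
        rw [Finset.mem_image]
        refine ⟨U.erase q, ?_, Multiset.cons_erase hq⟩
        rw [hP, Finset.mem_image]
        refine ⟨U, Finset.mem_filter.2 ⟨hU, hq, fun r hr => ?_⟩, rfl⟩
        exact hmax r (Multiset.mem_toFinset.2 hr)
      have hpiece : ∀ q ∈ Q.filter (fun q => v q ≤ m), ((P q).card : ℝ) ≤
          (4 * (L : ℝ)) ^ n * (2 * (1 / 2 : ℝ) ^ (N / v q)) := by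
        intro q hq
        rw [Finset.mem_filter] at hq
        have hq0 := hv q hq.1
        have h1 := ih (N - v q) (v q) hq0 (P q) (by
          intro V hV
          rw [hP, Finset.mem_image] at hV
          obtain ⟨U, hU, rfl⟩ := hV
          rw [Finset.mem_filter] at hU
          have hUS := hS U hU.1
          obtain ⟨W, hW⟩ := Multiset.exists_cons_of_mem hU.2.1
          have he : U.erase q = W := by rw [hW]; exact Multiset.erase_cons_head q W
          rw [he]
          refine ⟨?_, ?_, ?_⟩
          · have := hUS.1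
            rw [hW, Multiset.card_cons] at this
            omega
          · have := hUS.2.1
            rw [hW, Multiset.map_cons, Multiset.sum_cons] at this
            linarith
          · intro r hr
            have hrU : r ∈ U := by rw [hW]; exact Multiset.mem_cons_of_mem hr
            exact ⟨(hUS.2.2 r hrU).1, hU.2.2 r hrU⟩)
        refine h1.trans (le_of_eq ?_)
        congr 1
        have : (N - v q) / v q = N / v q + (-1) := by
          field_simp
          ring
        rw [this, Real.rpow_add (by norm_num), Real.rpow_neg_one]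
        ring
      have hsum := dy' Q v L hL hv N m hm0 (min_le_right _ _)
      calc (S.card : ℝ) ≤ (((Q.filter fun q => v q ≤ m).biUnion
          (fun q => (P q).image (fun U => q ::ₘ U))).card : ℝ) := by
            exact_mod_cast Finset.card_le_card hcover
        _ ≤ ((∑ q ∈ Q.filter (fun q => v q ≤ m), ((P q).image (fun U => q ::ₘ U)).card : ℕ) :
              ℝ) := by
            exact_mod_cast Finset.card_biUnion_le
        _ ≤ ∑ q ∈ Q.filter (fun q => v q ≤ m), ((P q).card : ℝ) := by
            push_cast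
            apply Finset.sum_le_sum
            intro q _
            exact_mod_cast Finset.card_image_le
        _ ≤ ∑ q ∈ Q.filter (fun q => v q ≤ m),
              (4 * (L : ℝ)) ^ n * (2 * (1 / 2 : ℝ) ^ (N / v q)) :=
            Finset.sum_le_sum hpiece
        _ = (4 * (L : ℝ)) ^ n * (2 * ∑ q ∈ Q.filter (fun q => v q ≤ m),
              (1 / 2 : ℝ) ^ (N / v q)) := by
            rw [Finset.mul_sum, Finset.mul_sum]
        _ ≤ (4 * (L : ℝ)) ^ n * (2 * (2 * L * (1 / 2 : ℝ) ^ (N / m))) := by
            apply mul_le_mul_of_nonneg_left _ (by positivity)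
            linarith
        _ = (4 * (L : ℝ)) ^ (n + 1) * (1 / 2 : ℝ) ^ (N / m) := by ring
        _ ≤ (4 * (L : ℝ)) ^ (n + 1) * (1 / 2 : ℝ) ^ (N / x) := by
            apply mul_le_mul_of_nonneg_left _ (by positivity)
            apply Real.rpow_le_rpow_of_exponent_ge (by norm_num) (by norm_num)
            exact div_le_div_of_nonneg_left hN.le hm0 (min_le_left _ _)

end

end Pool.Agent.Y927.LS
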