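import Pool.Agent.Y927.LS.A

/-!
The `k`-fold sumset of a set of sums of few elements of a lacunary set.
-/

set_option autoImplicit false

namespace Pool.Agent.Y927.LS

open Finset

/-- sum of the letters with label `i` -/
noncomputable def part {k : ℕ} (i : Fin k) : Multiset (Fin k × ℝ) →+ ℝ where
  toFun U := ((U.filter (fun p => p.1 = i)).map Prod.snd).sum
  map_zero' := by simp
  map_add' U V := by simp [Multiset.filter_add]

/-- sum of all letters -/
noncomputable def tot {k : ℕ} : Multiset (Fin k × ℝ) →+ ℝ where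
  toFun U := (U.map Prod.snd).sum
  map_zero' := by simp
  map_add' U V := by simp

lemma part_lab {k : ℕ} (i j : Fin k) (M : Multiset ℝ) :
    part i (M.map (fun l => (j, l))) = if j = i then M.sum else 0 := by
  show (((M.map (fun l => (j, l))).filter (fun p => p.1 = i)).map Prod.snd).sum = _
  rw [Multiset.filter_map]
  split_ifs with h
  · have : M.filter ((fun p : Fin k × ℝ => p.1 = i) ∘ fun l => (j, l)) = M := by
      apply Multiset.filter_eq_self.2
      intro a _
      exact h
    rw [this, Multiset.map_map]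
    have e : (Prod.snd ∘ fun l : ℝ => (j, l)) = id := by funext x; rfl
    rw [e, Multiset.map_id]
  · have : M.filter ((fun p : Fin k × ℝ => p.1 = i) ∘ fun l => (j, l)) = 0 := by
      apply Multiset.filter_eq_nil.2
      intro a _
      exact h
    rw [this]; simp

/-- **`k`-fold sums of sums of few elements of a lacunary set of positive reals.** -/
theorem kfold (k L s : ℕ) (hk : 1 ≤ k) (hL1 : 1 ≤ L) (Lam : Set ℝ) (hpos : ∀ l ∈ Lam, 0 < l)
    (hcount : ∀ x : ℝ, 0 < x → (Lam ∩ Set.Ioc x (2 * x)).encard ≤ L) (A : Finset ℝ)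
    (hA : ∀ a ∈ A, ∃ M : Multiset ℝ, Multiset.card M ≤ s ∧ (∀ l ∈ M, l ∈ Lam) ∧ M.sum = a) :
    A.card ^ k ≤ (4 * k * L) ^ (k * s) *
      ((Fintype.piFinset (fun _ : Fin k => A)).image (fun f : Fin k → ℝ => ∑ i, f i)).card := by
  classical
  choose! M hM1 hM2 hM3 using hA
  set L0 : Finset ℝ := A.biUnion fun a => (M a).toFinset with hL0
  have hL0L : ∀ l ∈ L0, l ∈ Lam := by
    intro l hl
    rw [hL0, Finset.mem_biUnion] at hl
    obtain ⟨a, ha, hl⟩ := hl
    exact hM2 a ha l (Multiset.mem_toFinset.1 hl)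
  set Q : Finset (Fin k × ℝ) := Finset.univ ×ˢ L0 with hQ
  have hv : ∀ q ∈ Q, 0 < q.2 := by
    intro q hq
    rw [hQ, Finset.mem_product] at hq
    exact hpos _ (hL0L _ hq.2)
  have hLc : ∀ x : ℝ, 0 < x → (Q.filter fun q => x < q.2 ∧ q.2 ≤ 2 * x).card ≤ k * L := by
    intro x hx
    have h1 : Q.filter (fun q => x < q.2 ∧ q.2 ≤ 2 * x) ⊆
        Finset.univ ×ˢ (L0.filter fun l => x < l ∧ l ≤ 2 * x) := by
      intro q hq
      rw [Finset.mem_filter, hQ, Finset.mem_product] at hq
      rw [Finset.mem_product, Finset.mem_filter]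
      exact ⟨hq.1.1, hq.1.2, hq.2⟩
    have h2 : (L0.filter fun l => x < l ∧ l ≤ 2 * x).card ≤ L := by
      have h3 : ((L0.filter fun l => x < l ∧ l ≤ 2 * x : Finset ℝ) : Set ℝ) ⊆
          Lam ∩ Set.Ioc x (2 * x) := by
        intro l hl
        rw [Finset.mem_coe, Finset.mem_filter] at hl
        exact ⟨hL0L l hl.1, hl.2.1, hl.2.2⟩
      have h4 := (Set.encard_le_encard h3).trans (hcount x hx)
      rw [Set.encard_coe_eq_coe_finsetCard] at h4
      exact_mod_cast h4
    calc (Q.filter fun q => x < q.2 ∧ q.2 ≤ 2 * x).card ≤ _ := Finset.card_le_card h1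
      _ = k * (L0.filter fun l => x < l ∧ l ≤ 2 * x).card := by
          rw [Finset.card_product, Finset.card_univ, Fintype.card_fin]
      _ ≤ k * L := Nat.mul_le_mul_left _ h2
  set x0 : ℝ := 1 + ∑ l ∈ L0, l with hx0
  have hx0pos : 0 < x0 := by
    have : 0 ≤ ∑ l ∈ L0, l := Finset.sum_nonneg fun l hl => (hpos l (hL0L l hl)).le
    rw [hx0]; linarith
  have hx0le : ∀ l ∈ L0, l ≤ x0 := by
    intro l hl
    have := Finset.single_le_sum (f := fun l : ℝ => l)
      (fun l hl => (hpos l (hL0L l hl)).le) hl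
    rw [hx0]; linarith
  -- the words
  set U : (Fin k → ℝ) → Multiset (Fin k × ℝ) := fun f =>
    ∑ i, (M (f i)).map (fun l => (i, l)) with hU
  have hUpart : ∀ f : Fin k → ℝ, (∀ i, f i ∈ A) → ∀ i, part i (U f) = f i := by
    intro f hf i
    rw [hU]
    simp only [map_sum, part_lab]
    rw [Finset.sum_ite_eq' Finset.univ i]
    simp only [Finset.mem_univ, if_true]
    exact hM3 _ (hf i)
  have hinj : Set.InjOn U (Fintype.piFinset (fun _ : Fin k => A) : Finset (Fin k → ℝ)) := by
    intro f hf g hg hfg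
    rw [Finset.mem_coe, Fintype.mem_piFinset] at hf hg
    funext i
    rw [← hUpart f hf i, ← hUpart g hg i, hfg]
  have hfib : ∀ N ∈ (Fintype.piFinset (fun _ : Fin k => A)).image
      (fun f : Fin k → ℝ => ∑ i, f i),
      ((Fintype.piFinset (fun _ : Fin k => A)).filter fun f => ∑ i, f i = N).card ≤
        (4 * k * L) ^ (k * s) := by
    intro N hN
    set S : Finset (Multiset (Fin k × ℝ)) :=
      ((Fintype.piFinset (fun _ : Fin k => A)).filter fun f => ∑ i, f i = N).image U with hS
    have hScard : S.card =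
        ((Fintype.piFinset (fun _ : Fin k => A)).filter fun f => ∑ i, f i = N).card := by
      apply Finset.card_image_of_injOn
      intro f hf g hg hfg
      rw [Finset.mem_coe, Finset.mem_filter] at hf hg
      exact hinj hf.1 hg.1 hfg
    have hSprop : ∀ V ∈ S, Multiset.card V ≤ k * s ∧ (V.map Prod.snd).sum = N ∧
        ∀ q ∈ V, q ∈ Q ∧ q.2 ≤ x0 := by
      intro V hV
      rw [hS, Finset.mem_image] at hV
      obtain ⟨f, hf, rfl⟩ := hV
      rw [Finset.mem_filter, Fintype.mem_piFinset] at hf
      refine ⟨?_, ?_, ?_⟩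
      · rw [hU]
        simp only [Multiset.card_sum, Multiset.card_map]
        calc ∑ i, Multiset.card (M (f i)) ≤ ∑ _i : Fin k, s :=
              Finset.sum_le_sum fun i _ => hM1 _ (hf.1 i)
          _ = k * s := by simp
      · have e0 : ((U f).map Prod.snd).sum = tot (U f) := rfl
        rw [e0, hU]
        simp only [map_sum]
        rw [← hf.2]
        apply Finset.sum_congr rfl
        intro i _
        show (((M (f i)).map (fun l => (i, l))).map Prod.snd).sum = f i
        rw [Multiset.map_map]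
        have e : (Prod.snd ∘ fun l : ℝ => (i, l)) = id := by funext x; rfl
        rw [e, Multiset.map_id]
        exact hM3 _ (hf.1 i)
      · intro q hq
        rw [hU] at hq
        simp only [Multiset.mem_sum, Finset.mem_univ, true_and, Multiset.mem_map] at hq
        obtain ⟨i, l, hl, rfl⟩ := hq
        have hl0 : l ∈ L0 := by
          rw [hL0, Finset.mem_biUnion]
          exact ⟨f i, hf.1 i, Multiset.mem_toFinset.2 hl⟩
        refine ⟨?_, hx0le l hl0⟩
        rw [hQ, Finset.mem_product]
        exact ⟨Finset.mem_univ _, hl0⟩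
    have hN0 : 0 ≤ N := by
      rw [Finset.mem_image] at hN
      obtain ⟨f, hf, rfl⟩ := hN
      rw [Fintype.mem_piFinset] at hf
      apply Finset.sum_nonneg
      intro i _
      rw [← hM3 _ (hf i)]
      apply Multiset.sum_nonneg
      intro l hl
      exact (hpos l (hM2 _ (hf i) l hl)).le
    have h1 := reps Q Prod.snd (k * L) (Nat.mul_pos hk hL1) hLc hv (k * s) N x0 hx0pos S hSprop
    have h2 : (1 / 2 : ℝ) ^ (N / x0) ≤ 1 :=
      Real.rpow_le_one (by norm_num) (by norm_num) (by positivity)
    have h3 : (S.card : ℝ) ≤ (4 * ((k * L : ℕ) : ℝ)) ^ (k * s) :=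
      h1.trans (mul_le_of_le_one_right (by positivity) h2)
    rw [← hScard]
    have h4 : (4 * ((k * L : ℕ) : ℝ)) ^ (k * s) = (((4 * k * L) ^ (k * s) : ℕ) : ℝ) := by
      push_cast; ring
    rw [h4] at h3
    exact_mod_cast h3
  have := Finset.card_le_mul_card_image (f := fun f : Fin k → ℝ => ∑ i, f i)
    (Fintype.piFinset (fun _ : Fin k => A)) ((4 * k * L) ^ (k * s)) hfib
  rw [Fintype.card_piFinset_const] at this
  simpa using this

end Pool.Agent.Y927.LS
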