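import Pool.Agent.Y927.LS.B

/-!
Integer sets, the sum-product form, and an example with signs.
-/

set_option autoImplicit false

namespace Pool.Agent.Y927.LS

open Finset
open scoped Pointwise

/-- `k`-fold version for integer sets after an affine map. -/
theorem kfold_int (k L s : ℕ) (hk : 1 ≤ k) (hL1 : 1 ≤ L) (Lam : Set ℝ) (hpos : ∀ l ∈ Lam, 0 < l)
    (hcount : ∀ x : ℝ, 0 < x → (Lam ∩ Set.Ioc x (2 * x)).encard ≤ L) (q t : ℝ) (hq : q ≠ 0)
    (A : Finset ℤ)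
    (hA : ∀ a ∈ A, ∃ M : Multiset ℝ, Multiset.card M ≤ s ∧ (∀ l ∈ M, l ∈ Lam) ∧
      M.sum = q * a + t) :
    A.card ^ k ≤ (4 * k * L) ^ (k * s) *
      ((Fintype.piFinset (fun _ : Fin k => A)).image (fun f : Fin k → ℤ => ∑ i, f i)).card := by
  classical
  set φ : ℤ → ℝ := fun a => q * a + t with hφ
  have hinj : Function.Injective φ := by
    intro a b hab
    have h1 : q * (a : ℝ) = q * (b : ℝ) := by
      have : q * (a : ℝ) + t = q * (b : ℝ) + t := hab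
      linarith
    exact_mod_cast mul_left_cancel₀ hq h1
  have h1 := kfold k L s hk hL1 Lam hpos hcount (A.image φ) (by
    intro x hx
    rw [Finset.mem_image] at hx
    obtain ⟨a, ha, rfl⟩ := hx
    exact hA a ha)
  rw [Finset.card_image_of_injective A hinj] at h1
  refine h1.trans (Nat.mul_le_mul_left _ ?_)
  have hsub : (Fintype.piFinset (fun _ : Fin k => A.image φ)).image
      (fun f : Fin k → ℝ => ∑ i, f i) ⊆
      ((Fintype.piFinset (fun _ : Fin k => A)).image (fun f : Fin k → ℤ => ∑ i, f i)).image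
        (fun n : ℤ => q * n + k * t) := by
    intro x hx
    rw [Finset.mem_image] at hx
    obtain ⟨f, hf, rfl⟩ := hx
    rw [Fintype.mem_piFinset] at hf
    have : ∀ i, ∃ a ∈ A, φ a = f i := by
      intro i
      have := hf i
      rw [Finset.mem_image] at this
      exact this
    choose a ha hfa using this
    rw [Finset.mem_image]
    refine ⟨∑ i, a i, Finset.mem_image.2 ⟨a, (Fintype.mem_piFinset).2 ha, rfl⟩, ?_⟩
    have e : ∀ i, f i = q * a i + t := fun i => (hfa i).symm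
    rw [Finset.sum_congr rfl (fun i _ => e i), Finset.sum_add_distrib]
    push_cast
    rw [Finset.mul_sum]
    simp
  exact (Finset.card_le_card hsub).trans Finset.card_image_le

/-- two-fold version -/
theorem twofold (L s : ℕ) (hL1 : 1 ≤ L) (Lam : Set ℝ) (hpos : ∀ l ∈ Lam, 0 < l)
    (hcount : ∀ x : ℝ, 0 < x → (Lam ∩ Set.Ioc x (2 * x)).encard ≤ L) (q t : ℝ) (hq : q ≠ 0)
    (A : Finset ℤ)
    (hA : ∀ a ∈ A, ∃ M : Multiset ℝ, Multiset.card M ≤ s ∧ (∀ l ∈ M, l ∈ Lam) ∧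
      M.sum = q * a + t) :
    A.card ^ 2 ≤ (8 * L) ^ (2 * s) * (A + A).card := by
  have h1 := kfold_int 2 L s (by norm_num) hL1 Lam hpos hcount q t hq A hA
  have h2 : (Fintype.piFinset (fun _ : Fin 2 => A)).image (fun f : Fin 2 → ℤ => ∑ i, f i) ⊆
      A + A := by
    intro x hx
    rw [Finset.mem_image] at hx
    obtain ⟨f, hf, rfl⟩ := hx
    rw [Fintype.mem_piFinset] at hf
    rw [Fin.sum_univ_two]
    exact Finset.add_mem_add (hf 0) (hf 1)
  calc A.card ^ 2 ≤ _ := h1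
    _ ≤ (4 * 2 * L) ^ (2 * s) * (A + A).card := Nat.mul_le_mul_left _ (Finset.card_le_card h2)
    _ = _ := by norm_num

/-- sum-product form -/
theorem sumprod (θ : ℝ) (hθ : 0 ≤ θ) (L s : ℕ) (hL1 : 1 ≤ L) (Lam : Set ℝ)
    (hpos : ∀ l ∈ Lam, 0 < l)
    (hcount : ∀ x : ℝ, 0 < x → (Lam ∩ Set.Ioc x (2 * x)).encard ≤ L) (q t : ℝ) (hq : q ≠ 0)
    (A B : Finset ℤ) (hne : A.Nonempty) (hBA : B ⊆ A) (hB : (A.card : ℝ) ^ (1 - θ) ≤ B.card)
    (hs : (s : ℝ) * Real.log (8 * L) ≤ θ * Real.log A.card)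
    (hA : ∀ a ∈ B, ∃ M : Multiset ℝ, Multiset.card M ≤ s ∧ (∀ l ∈ M, l ∈ Lam) ∧
      M.sum = q * a + t) :
    (A.card : ℝ) ^ (2 - 4 * θ) ≤ max ((A + A).card : ℝ) ((A * A).card : ℝ) := by
  apply le_max_of_le_left
  have h1 := twofold L s hL1 Lam hpos hcount q t hq B hA
  have h2 : (B + B).card ≤ (A + A).card := Finset.card_le_card (Finset.add_subset_add hBA hBA)
  have hLr : (1 : ℝ) ≤ L := by exact_mod_cast hL1
  have h3 : (B.card : ℝ) ^ 2 ≤ (8 * (L : ℝ)) ^ (2 * s) * ((A + A).card : ℝ) := by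
    exact_mod_cast h1.trans (Nat.mul_le_mul_left _ h2)
  have hN1 : (1 : ℝ) ≤ A.card := by exact_mod_cast Finset.card_pos.2 hne
  have hN0 : (0 : ℝ) < A.card := by linarith
  have g0 : (0 : ℝ) < 8 * L := by linarith
  have p1 : (A.card : ℝ) ^ ((1 - θ) * 2) ≤ (B.card : ℝ) ^ 2 := by
    rw [Real.rpow_mul hN0.le, Real.rpow_ofNat]
    exact pow_le_pow_left₀ (by positivity) hB 2
  have p2 : (8 * (L : ℝ)) ^ (2 * s) ≤ (A.card : ℝ) ^ (2 * θ) := by
    have e1 : (8 * (L : ℝ)) ^ (2 * s) = Real.exp (Real.log (8 * L) * (2 * s : ℕ)) := by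
      rw [← Real.rpow_natCast, Real.rpow_def_of_pos g0]
    rw [e1, Real.rpow_def_of_pos hN0]
    apply Real.exp_le_exp.2
    push_cast
    linarith
  have p3 : (A.card : ℝ) ^ ((1 - θ) * 2) ≤ (A.card : ℝ) ^ (2 * θ) * ((A + A).card : ℝ) :=
    p1.trans (h3.trans (mul_le_mul_of_nonneg_right p2 (Nat.cast_nonneg _)))
  have p4 : (A.card : ℝ) ^ (2 - 4 * θ) = (A.card : ℝ) ^ ((1 - θ) * 2) / (A.card : ℝ) ^ (2 * θ) := by
    rw [← Real.rpow_sub hN0]; congr 1; ring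
  rw [p4, div_le_iff₀ (by positivity)]
  linarith

/-- Signed sums of three elements of a lacunary set can contain all positive integers. -/
theorem signed : ∃ Lam : Set ℝ, (∀ l ∈ Lam, 0 < l) ∧
    (∀ x : ℝ, 0 < x → (Lam ∩ Set.Ioc x (2 * x)).encard ≤ 2) ∧
    ∀ n : ℕ, ∃ a ∈ Lam, ∃ b ∈ Lam, ∃ c ∈ Lam, (n : ℝ) = a + b - c := by
  refine ⟨(Set.range fun j : ℕ => (3 : ℝ) ^ j) ∪ (Set.range fun j : ℕ => 2 * (3 : ℝ) ^ j + j),
    ?_, ?_, ?_⟩
  · rintro l (⟨j, rfl⟩ | ⟨j, rfl⟩)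
    · show (0 : ℝ) < 3 ^ j
      positivity
    · show (0 : ℝ) < 2 * 3 ^ j + j
      positivity
  · intro x hx
    rw [Set.union_inter_distrib_right]
    refine (Set.encard_union_le _ _).trans ?_
    have key : ∀ g : ℕ → ℝ, (∀ i j, i < j → 2 * g i < g j) →
        ((Set.range g) ∩ Set.Ioc x (2 * x)).encard ≤ 1 := by
      intro g hg
      rw [Set.encard_le_one_iff]
      rintro a b ⟨⟨i, rfl⟩, hi1, hi2⟩ ⟨⟨j, rfl⟩, hj1, hj2⟩
      rcases lt_trichotomy i j with h | h | h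
      · have := hg i j h; linarith
      · rw [h]
      · have := hg j i h; linarith
    have k1 := key (fun j => (3 : ℝ) ^ j) (by
      intro i j hij
      have h1 : (3 : ℝ) ^ (i + 1) ≤ 3 ^ j := pow_le_pow_right₀ (by norm_num) hij
      have h2 : (0 : ℝ) < 3 ^ i := by positivity
      rw [pow_succ] at h1
      linarith)
    have k2 := key (fun j => 2 * (3 : ℝ) ^ j + j) (by
      intro i j hij
      have h1 : (3 : ℝ) ^ (i + 1) ≤ 3 ^ j := pow_le_pow_right₀ (by norm_num) hij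
      have h2 : (i : ℝ) + 1 ≤ j := by exact_mod_cast hij
      have h3 : (i : ℝ) ≤ 3 ^ i := by exact_mod_cast (Nat.lt_pow_self (by norm_num)).le
      rw [pow_succ] at h1
      linarith)
    calc _ ≤ (1 : ℕ∞) + 1 := add_le_add k1 k2
      _ = 2 := by norm_num
  · intro n
    refine ⟨2 * (3 : ℝ) ^ n + n, Or.inr ⟨n, rfl⟩, 3 ^ n, Or.inl ⟨n, rfl⟩, 3 ^ (n + 1),
      Or.inl ⟨n + 1, rfl⟩, ?_⟩
    rw [pow_succ]; ring

end Pool.Agent.Y927.LS
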